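import Pool.Agent.TH6.CX.VC

set_option autoImplicit false

/-! Finite complexes of based free modules over the integral group ring of any group whose boundary
maps have `ℓ²`-operator norm less than `3 / √2` are sums of complexes induced from virtually cyclic
subgroups, and their torsion, if they are contractible, comes from virtually cyclic subgroups. -/

namespace Pool.Agent.Results.MP_63c928_gt.ThinComplexes

open TH57.Thr TH6.LF TH6.PF TH6.CX

theorem result (Γ : Type) [Group Γ] (ι : Type) [Fintype ι] [DecidableEq ι] (deg : ι → ℤ)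
    (d : Matrix ι ι (MonoidAlgebra ℤ Γ)) (hd : IsBoundary deg d)
    (c : ℝ) (hc0 : 0 < c) (hc : c ^ 2 < 9 / 2) :
    (NormLE d c → ∃ (ρ : ι → ι) (u : ι → Γ) (C : ι → Subgroup Γ),
      (∀ b, IsVC (C b)) ∧ InBlocks ρ C (Dm u * d * adj (Dm u))) ∧
    ((NormLE d c ∨ ∃ t, IsContraction deg d t ∧ t * t = 0 ∧ NormLE t c) →
      ∀ s : Matrix ι ι (MonoidAlgebra ℤ Γ), IsContraction deg d s →
      Nonempty ({i // Odd (deg i)} ≃ {i // Even (deg i)}) ∧
      ∀ e : {i // Odd (deg i)} ≃ {i // Even (deg i)},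
        ∃ T : (Matrix {i // Odd (deg i)} {i // Odd (deg i)} (MonoidAlgebra ℤ Γ))ˣ,
          T.val = torsionMatrix deg d s e ∧ T ∈ VCGen ℤ Γ {i // Odd (deg i)}) :=
  ⟨fun h => cx_structure_vc deg d hd c hc0 hc h,
    fun h s hs => main_vc deg d hd c hc0 hc h s hs⟩

end Pool.Agent.Results.MP_63c928_gt.ThinComplexes
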